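import Pool.Agent.TH218.LS.Slice
set_option autoImplicit false

/-! # The weighted estimate for the Fourier transform of a set of finite perimeter, dimension `m` -/

open MeasureTheory Set
open scoped ENNReal

namespace Pool.Agent.TH218.BRS

open Pool.Agent.TH280.LS Pool.Agent.TH218.LS

lemma norm_le_nrm {m : ℕ} (η : Fin m → ℝ) : ‖η‖ ≤ nr η := by
  rw [pi_norm_le_iff_of_nonneg (nr_nonneg η)]
  intro i
  rw [Real.norm_eq_abs, ← Real.sqrt_sq_eq_abs]
  unfold nr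
  exact Real.sqrt_le_sqrt (Finset.single_le_sum (f := fun i => η i ^ 2)
    (fun i _ => sq_nonneg _) (Finset.mem_univ i))

lemma nrm_le_norm {m : ℕ} (η : Fin m → ℝ) : nr η ≤ m * ‖η‖ := by
  unfold nr
  rw [Real.sqrt_le_left (by positivity)]
  have h1 : ∑ i, η i ^ 2 ≤ ∑ _i : Fin m, ‖η‖ ^ 2 := by
    refine Finset.sum_le_sum fun i _ => ?_
    rw [← sq_abs]
    exact pow_le_pow_left₀ (abs_nonneg _) (norm_le_pi_norm η i) 2
  rw [Finset.sum_const, Finset.card_univ, Fintype.card_fin, nsmul_eq_mul] at h1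
  refine h1.trans ?_
  rw [mul_pow]
  refine mul_le_mul_of_nonneg_right ?_ (by positivity)
  rcases Nat.eq_zero_or_pos m with h | h
  · subst h; norm_num
  · have h2 : (1 : ℝ) ≤ m := by exact_mod_cast h
    nlinarith

/-- shells -/
def Shm (m : ℕ) (R : ℝ) : Set (Fin m → ℝ) := {η | R ≤ ‖η‖ ∧ ‖η‖ ≤ 2 * R}

lemma measurable_Shm (m : ℕ) (R : ℝ) : MeasurableSet (Shm m R) := by
  have hc : Continuous (fun η : Fin m → ℝ => ‖η‖) := continuous_norm
  exact (measurableSet_le measurable_const hc.measurable).inter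
    (measurableSet_le hc.measurable measurable_const)

lemma shm_L2 {m : ℕ} {G : (Fin m → ℝ) → ℂ} {V : ℝ} (hG : Integrable G)
    (hA : ∀ᵐ y, ‖G y‖ ≤ 1)
    (hV : ∀ h : Fin m → ℝ, ∫⁻ y : Fin m → ℝ, ‖G (y + h) - G y‖ₑ ≤ ENNReal.ofReal (V * nr h))
    (R : ℝ) (hR : 0 < R) (hV0 : 0 ≤ V) :
    ∫⁻ η in Shm m R, ‖ftm m G η‖ₑ ^ 2 ≤ ENNReal.ofReal (m * V / R) := by
  have hsub : Shm m R ⊆ ⋃ i : Fin m, {η : Fin m → ℝ | R ≤ |η i| ∧ |η i| ≤ 2 * R} := by
    rintro η ⟨h1, h2⟩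
    by_contra hc
    have h3 : ∀ i, |η i| < R := by
      intro i
      by_contra hi
      push Not at hi
      exact hc (mem_iUnion.2 ⟨i, hi, (norm_le_pi_norm η i).trans h2⟩)
    have : ‖η‖ < R := by
      rw [pi_norm_lt_iff hR]
      exact h3
    linarith
  refine (lintegral_mono_set hsub).trans ((lintegral_iUnion_le _ _).trans ?_)
  have h4 : ∀ i : Fin m, ∫⁻ η in {η : Fin m → ℝ | R ≤ |η i| ∧ |η i| ≤ 2 * R},
      ‖ftm m G η‖ₑ ^ 2 ≤ ENNReal.ofReal (V / R) := by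
    intro i
    refine (strip hG hA hV i R hR zero_le_one).trans (ENNReal.ofReal_le_ofReal ?_)
    rw [one_mul]
    exact div_le_div_of_nonneg_left hV0 hR (by linarith)
  refine (ENNReal.tsum_le_tsum h4).trans (le_of_eq ?_)
  rw [tsum_fintype, Finset.sum_const, Finset.card_univ, Fintype.card_fin, nsmul_eq_mul,
    ← ENNReal.ofReal_natCast, ← ENNReal.ofReal_mul (by positivity), mul_div_assoc]

/-- high frequencies -/
lemma shm_high {m : ℕ} {G : (Fin m → ℝ) → ℂ} {V : ℝ} (hG : Integrable G)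
    (hA : ∀ᵐ y, ‖G y‖ ≤ 1)
    (hV : ∀ h : Fin m → ℝ, ∫⁻ y : Fin m → ℝ, ‖G (y + h) - G y‖ₑ ≤ ENNReal.ofReal (V * nr h))
    (p : ℝ) (hp2 : 2 < p) (R : ℝ) (hR : 0 < R) (hV0 : 0 ≤ V) :
    ∫⁻ η in Shm m R, ENNReal.ofReal ((nr η ^ m) ^ (p - 2)) * ‖ftm m G η‖ₑ ^ p ≤
      ENNReal.ofReal (((2 * m) ^ m : ℝ) ^ (p - 2) * m * V ^ (p - 1) *
        R ^ (((m : ℝ) - 1) * (p - 2) - 1)) := by
  set c : ℝ := ((2 * m * R) ^ m : ℝ) ^ (p - 2) * (V / R) ^ (p - 2) with hc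
  have hc0 : 0 ≤ c := by positivity
  have hpt : ∀ η ∈ Shm m R, ENNReal.ofReal ((nr η ^ m) ^ (p - 2)) *
      ‖ftm m G η‖ₑ ^ p ≤ ENNReal.ofReal c * ‖ftm m G η‖ₑ ^ 2 := by
    rintro η ⟨h1, h2⟩
    have hn1 : R ≤ nr η := h1.trans (norm_le_nrm η)
    have hn2 : nr η ≤ 2 * m * R := (nrm_le_norm η).trans (by
      have : (0 : ℝ) ≤ m := Nat.cast_nonneg m
      nlinarith)
    have hnp : 0 < nr η := by linarith
    have hdec := ftm_decay hG hV η hnp hV0
    have hF : ‖ftm m G η‖ ≤ V / R :=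
      hdec.trans (div_le_div_of_nonneg_left hV0 (by positivity) (by linarith))
    have e1 : ‖ftm m G η‖ₑ ^ p = ENNReal.ofReal (‖ftm m G η‖ ^ (p - 2)) * ‖ftm m G η‖ₑ ^ 2 := by
      rw [← ofReal_norm, ENNReal.ofReal_rpow_of_nonneg (norm_nonneg _) (by linarith),
        ← ENNReal.ofReal_pow (norm_nonneg _), ← ENNReal.ofReal_mul (by positivity)]
      congr 1
      rw [← Real.rpow_natCast (‖ftm m G η‖) 2,
        ← Real.rpow_add_of_nonneg (norm_nonneg _) (by linarith) (by norm_num)]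
      congr 1
      push_cast; ring
    rw [e1, ← mul_assoc, ← ENNReal.ofReal_mul (by positivity)]
    refine mul_le_mul_left (ENNReal.ofReal_le_ofReal ?_) _
    have h3 : (nr η ^ m) ^ (p - 2) ≤ ((2 * m * R) ^ m : ℝ) ^ (p - 2) :=
      Real.rpow_le_rpow (by positivity) (pow_le_pow_left₀ hnp.le hn2 m) (by linarith)
    have h7 : ‖ftm m G η‖ ^ (p - 2) ≤ (V / R) ^ (p - 2) :=
      Real.rpow_le_rpow (norm_nonneg _) hF (by linarith)
    exact mul_le_mul h3 h7 (by positivity) (by positivity)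
  refine (setLIntegral_mono' (measurable_Shm m R) hpt).trans ?_
  rw [lintegral_const_mul' _ _ ENNReal.ofReal_ne_top]
  refine (mul_le_mul_right (shm_L2 hG hA hV R hR hV0) _).trans ?_
  rw [← ENNReal.ofReal_mul hc0]
  refine ENNReal.ofReal_le_ofReal (le_of_eq ?_)
  have h8 : V ^ (p - 1) = V ^ (p - 2) * V := by
    rw [← Real.rpow_add_one' hV0 (by linarith)]
    congr 1; ring
  have h9 : ((2 * m * R) ^ m : ℝ) ^ (p - 2) = ((2 * m) ^ m : ℝ) ^ (p - 2) *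
      R ^ ((m : ℝ) * (p - 2)) := by
    rw [mul_pow, Real.mul_rpow (by positivity) (by positivity), ← Real.rpow_natCast R m,
      ← Real.rpow_mul hR.le]
  have h10 : R ^ (((m : ℝ) - 1) * (p - 2) - 1) = R ^ ((m : ℝ) * (p - 2)) / R ^ (p - 2) / R := by
    rw [← Real.rpow_sub hR]
    nth_rewrite 3 [← Real.rpow_one R]
    rw [← Real.rpow_sub hR]
    congr 1; ring
  rw [hc, h8, h9, h10, Real.div_rpow hV0 hR.le]
  ring

/-- the trivial bound -/
lemma shm_triv {m : ℕ} {G : (Fin m → ℝ) → ℂ} {M : ℝ} (hM : ∀ η, ‖ftm m G η‖ ≤ M)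
    (hM0 : 0 ≤ M) (p : ℝ) (hp2 : 2 < p) (R : ℝ) (hR : 0 < R) :
    ∫⁻ η in Shm m R, ENNReal.ofReal ((nr η ^ m) ^ (p - 2)) * ‖ftm m G η‖ₑ ^ p ≤
      ENNReal.ofReal (((2 * m) ^ m : ℝ) ^ (p - 2) * 4 ^ m * M ^ p *
        R ^ ((m : ℝ) * (p - 1))) := by
  have hpt : ∀ η ∈ Shm m R, ENNReal.ofReal ((nr η ^ m) ^ (p - 2)) *
      ‖ftm m G η‖ₑ ^ p ≤ ENNReal.ofReal (((2 * m * R) ^ m : ℝ) ^ (p - 2) * M ^ p) := by
    rintro η ⟨h1, h2⟩
    have hn1 : R ≤ nr η := h1.trans (norm_le_nrm η)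
    have hn2 : nr η ≤ 2 * m * R := (nrm_le_norm η).trans (by
      have : (0 : ℝ) ≤ m := Nat.cast_nonneg m
      nlinarith)
    have hnp : 0 < nr η := by linarith
    rw [← ofReal_norm, ENNReal.ofReal_rpow_of_nonneg (norm_nonneg _) (by linarith),
      ← ENNReal.ofReal_mul (by positivity)]
    refine ENNReal.ofReal_le_ofReal ?_
    have h3 : (nr η ^ m) ^ (p - 2) ≤ ((2 * m * R) ^ m : ℝ) ^ (p - 2) :=
      Real.rpow_le_rpow (by positivity) (pow_le_pow_left₀ hnp.le hn2 m) (by linarith)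
    have h7 : ‖ftm m G η‖ ^ p ≤ M ^ p :=
      Real.rpow_le_rpow (norm_nonneg _) (hM η) (by linarith)
    exact mul_le_mul h3 h7 (by positivity) (by positivity)
  refine (setLIntegral_mono' (measurable_Shm m R) hpt).trans ?_
  rw [setLIntegral_const]
  have hvol : volume (Shm m R) ≤ ENNReal.ofReal ((4 * R) ^ m) := by
    have hsub : Shm m R ⊆ Metric.closedBall 0 (2 * R) := by
      rintro η ⟨h1, h2⟩
      rwa [mem_closedBall_zero_iff]
    refine (measure_mono hsub).trans ?_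
    rw [Real.volume_pi_closedBall _ (by positivity)]
    refine ENNReal.ofReal_le_ofReal (le_of_eq ?_)
    simp only [Fintype.card_fin]
    ring
  refine (mul_le_mul_right hvol _).trans ?_
  rw [← ENNReal.ofReal_mul (by positivity)]
  refine ENNReal.ofReal_le_ofReal (le_of_eq ?_)
  have h9 : ((2 * m * R) ^ m : ℝ) ^ (p - 2) = ((2 * m) ^ m : ℝ) ^ (p - 2) *
      R ^ ((m : ℝ) * (p - 2)) := by
    rw [mul_pow, Real.mul_rpow (by positivity) (by positivity), ← Real.rpow_natCast R m,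
      ← Real.rpow_mul hR.le]
  have h10 : R ^ ((m : ℝ) * (p - 1)) = R ^ ((m : ℝ) * (p - 2)) * R ^ m := by
    rw [← Real.rpow_natCast R m, ← Real.rpow_add hR]
    congr 1; ring
  rw [h9, h10, mul_pow]
  ring

lemma geom_sum' (c q : ℝ) (hc : 0 ≤ c) (hq0 : 0 ≤ q) (hq1 : q < 1) :
    ∑' k : ℕ, ENNReal.ofReal (c * q ^ k) = ENNReal.ofReal (c / (1 - q)) := by
  rw [← ENNReal.ofReal_tsum_of_nonneg (fun k => by positivity)
    ((summable_geometric_of_lt_one hq0 hq1).mul_left c), tsum_mul_left,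
    tsum_geometric_of_lt_one hq0 hq1]
  rfl

lemma two_pow_rpow' (a : ℝ) (k : ℕ) : ((2 : ℝ) ^ k) ^ a = ((2 : ℝ) ^ a) ^ k := by
  rw [← Real.rpow_natCast 2 k, ← Real.rpow_mul (by norm_num), ← Real.rpow_natCast,
    ← Real.rpow_mul (by norm_num)]
  congr 1; ring

lemma two_pow_inv_rpow' (a : ℝ) (k : ℕ) : (((2 : ℝ) ^ k)⁻¹) ^ a = ((2 : ℝ) ^ (-a)) ^ k := by
  rw [Real.inv_rpow (by positivity), two_pow_rpow', Real.rpow_neg (by norm_num), inv_pow]

/-- the weighted estimate, for a bounded function with given mass and variation -/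
theorem setm_core (m : ℕ) (hm : 1 ≤ m) (p N : ℝ) (hp2 : 2 < p)
    (hpm : ((m : ℝ) - 1) * (p - 2) < 1) (hN : 0 < N) :
    ∃ C : ℝ, 0 < C ∧ ∀ (G : (Fin m → ℝ) → ℂ) (μ V : ℝ), Integrable G → (∀ᵐ y, ‖G y‖ ≤ 1) →
    (∀ h : Fin m → ℝ, ∫⁻ y : Fin m → ℝ, ‖G (y + h) - G y‖ₑ ≤ ENNReal.ofReal (V * nr h)) →
    (∀ η, ‖ftm m G η‖ ≤ μ) → 0 < μ → 0 ≤ V → V ≤ N * μ ^ (((m : ℝ) - 1) / m) →
    ∫⁻ η : Fin m → ℝ, ENNReal.ofReal ((nr η ^ m) ^ (p - 2)) *
      ‖ftm m G η‖ₑ ^ p ≤ ENNReal.ofReal (C * μ) := by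
  have hm0 : (0 : ℝ) < m := by exact_mod_cast hm
  set a : ℝ := ((m : ℝ) - 1) * (p - 2) - 1 with ha
  have ha0 : a < 0 := by rw [ha]; linarith
  set b : ℝ := (m : ℝ) * (p - 1) with hb
  have hb0 : 0 < b := by
    have : 0 < p - 1 := by linarith
    positivity
  set q : ℝ := (2 : ℝ) ^ a with hq
  have hq0 : 0 ≤ q := by positivity
  have hq1 : q < 1 := Real.rpow_lt_one_of_one_lt_of_neg (by norm_num) ha0
  set q' : ℝ := (2 : ℝ) ^ (-b) with hq'
  have hq0' : 0 ≤ q' := by positivity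
  have hq1' : q' < 1 := Real.rpow_lt_one_of_one_lt_of_neg (by norm_num) (by linarith)
  have hq2 : 0 < 1 - q := by linarith
  have hq2' : 0 < 1 - q' := by linarith
  set c1 : ℝ := ((2 * m) ^ m : ℝ) ^ (p - 2) * m with hc1
  set c2 : ℝ := ((2 * m) ^ m : ℝ) ^ (p - 2) * 4 ^ m with hc2
  have hc10 : 0 < c1 := by positivity
  have hc20 : 0 < c2 := by positivity
  refine ⟨c1 * N ^ (p - 1) / (1 - q) + c2 / (1 - q'), by positivity, ?_⟩
  intro G μ V hG hA hV hM hμ hV0 hVN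
  set R0 : ℝ := μ ^ (-(1 / (m : ℝ))) with hR0
  have hR0p : 0 < R0 := by positivity
  have hcov : (Set.univ : Set (Fin m → ℝ)) ⊆
      {0} ∪ ((⋃ k : ℕ, Shm m (R0 * 2 ^ k)) ∪ (⋃ k : ℕ, Shm m (R0 * (2 ^ (k + 1))⁻¹))) := by
    intro η _
    by_cases h0 : η = 0
    · left; exact h0
    right
    have hpos : 0 < ‖η‖ := norm_pos_iff.2 h0
    rcases le_total R0 ‖η‖ with h1 | h1
    · left
      have h2 : 1 ≤ ‖η‖ / R0 := (one_le_div hR0p).2 h1
      obtain ⟨n, hn1, hn2⟩ := exists_nat_pow_near h2 (by norm_num : (1 : ℝ) < 2)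
      refine mem_iUnion.2 ⟨n, ?_, ?_⟩
      · rw [le_div_iff₀ hR0p] at hn1
        linarith
      · rw [div_lt_iff₀ hR0p, pow_succ] at hn2
        linarith
    · right
      have h2 : 1 ≤ R0 / ‖η‖ := (one_le_div hpos).2 h1
      obtain ⟨n, hn1, hn2⟩ := exists_nat_pow_near h2 (by norm_num : (1 : ℝ) < 2)
      refine mem_iUnion.2 ⟨n, ?_, ?_⟩
      · rw [div_lt_iff₀ hpos] at hn2
        rw [← div_eq_mul_inv, div_le_iff₀ (by positivity)]
        linarith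
      · rw [le_div_iff₀ hpos] at hn1
        have h3 : 2 * (R0 * (2 ^ (n + 1))⁻¹) = R0 / 2 ^ n := by
          rw [pow_succ]
          field_simp
        rw [h3, le_div_iff₀ (by positivity)]
        linarith
  set f : (Fin m → ℝ) → ℝ≥0∞ := fun η =>
    ENNReal.ofReal ((nr η ^ m) ^ (p - 2)) * ‖ftm m G η‖ₑ ^ p with hf
  have h1 : ∫⁻ η, f η ≤ (∫⁻ η in ({0} : Set (Fin m → ℝ)), f η) +
      ((∑' k : ℕ, ∫⁻ η in Shm m (R0 * 2 ^ k), f η) +
        ∑' k : ℕ, ∫⁻ η in Shm m (R0 * (2 ^ (k + 1))⁻¹), f η) := by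
    rw [← setLIntegral_univ]
    refine (lintegral_mono_set hcov).trans ((lintegral_union_le _ _ _).trans ?_)
    refine add_le_add le_rfl ((lintegral_union_le _ _ _).trans ?_)
    exact add_le_add (lintegral_iUnion_le _ _) (lintegral_iUnion_le _ _)
  have h2 : ∫⁻ η in ({0} : Set (Fin m → ℝ)), f η = 0 := by
    have : Nonempty (Fin m) := ⟨⟨0, by omega⟩⟩
    exact setLIntegral_measure_zero _ _ (measure_singleton _)
  have hVp : V ^ (p - 1) * R0 ^ a ≤ N ^ (p - 1) * μ := by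
    have e1 : V ^ (p - 1) ≤ (N * μ ^ (((m : ℝ) - 1) / m)) ^ (p - 1) :=
      Real.rpow_le_rpow hV0 hVN (by linarith)
    refine (mul_le_mul_of_nonneg_right e1 (by positivity)).trans (le_of_eq ?_)
    rw [Real.mul_rpow hN.le (by positivity), mul_assoc, hR0, ← Real.rpow_mul hμ.le,
      ← Real.rpow_mul hμ.le, ← Real.rpow_add hμ]
    congr 1
    have : ((m : ℝ) - 1) / m * (p - 1) + -(1 / (m : ℝ)) * a = 1 := by
      rw [ha]
      field_simp
      ring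
    rw [this, Real.rpow_one]
  have hMp : μ ^ p * R0 ^ b = μ := by
    rw [hR0, ← Real.rpow_mul hμ.le, ← Real.rpow_add hμ]
    have : p + -(1 / (m : ℝ)) * b = 1 := by
      rw [hb]
      field_simp
      ring
    rw [this, Real.rpow_one]
  have h3 : ∑' k : ℕ, ∫⁻ η in Shm m (R0 * 2 ^ k), f η ≤
      ENNReal.ofReal (c1 * (N ^ (p - 1) * μ) / (1 - q)) := by
    rw [← geom_sum' (c1 * (N ^ (p - 1) * μ)) q (by positivity) hq0 hq1]
    refine ENNReal.tsum_le_tsum fun k => ?_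
    refine (shm_high hG hA hV p hp2 (R0 * 2 ^ k) (by positivity) hV0).trans ?_
    refine ENNReal.ofReal_le_ofReal ?_
    have e2 : (R0 * 2 ^ k) ^ a = R0 ^ a * q ^ k := by
      rw [Real.mul_rpow hR0p.le (by positivity), hq, two_pow_rpow']
    rw [← ha, ← hc1, e2]
    calc c1 * V ^ (p - 1) * (R0 ^ a * q ^ k)
        = c1 * (V ^ (p - 1) * R0 ^ a) * q ^ k := by ring
      _ ≤ c1 * (N ^ (p - 1) * μ) * q ^ k := by
          refine mul_le_mul_of_nonneg_right ?_ (by positivity)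
          exact mul_le_mul_of_nonneg_left hVp hc10.le
  have h4 : ∑' k : ℕ, ∫⁻ η in Shm m (R0 * (2 ^ (k + 1))⁻¹), f η ≤
      ENNReal.ofReal (c2 * μ / (1 - q')) := by
    rw [← geom_sum' (c2 * μ) q' (by positivity) hq0' hq1']
    refine ENNReal.tsum_le_tsum fun k => ?_
    refine (shm_triv hM hμ.le p hp2 (R0 * (2 ^ (k + 1))⁻¹) (by positivity)).trans ?_
    refine ENNReal.ofReal_le_ofReal ?_
    have h5 : (R0 * ((2 : ℝ) ^ (k + 1))⁻¹) ^ b = R0 ^ b * q' ^ (k + 1) := by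
      rw [Real.mul_rpow hR0p.le (by positivity), hq', two_pow_inv_rpow']
    rw [← hb, ← hc2, h5]
    calc c2 * μ ^ p * (R0 ^ b * q' ^ (k + 1))
        = c2 * (μ ^ p * R0 ^ b) * q' ^ (k + 1) := by ring
      _ = c2 * μ * q' ^ (k + 1) := by rw [hMp]
      _ ≤ c2 * μ * q' ^ k := by
          refine mul_le_mul_of_nonneg_left ?_ (by positivity)
          exact pow_le_pow_of_le_one hq0' hq1'.le (Nat.le_succ k)
  refine h1.trans ?_
  rw [h2, zero_add]
  refine (add_le_add h3 h4).trans ?_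
  rw [← ENNReal.ofReal_add (by positivity) (by positivity)]
  refine ENNReal.ofReal_le_ofReal (le_of_eq ?_)
  field_simp

end Pool.Agent.TH218.BRS
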