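import Pool.Agent.TH218.BRS.Core
import Pool.Agent.TH218.LS.Layer2
set_option autoImplicit false

/-! # From sets to functions: the layer cake in dimension `m` -/

open MeasureTheory Set
open scoped ENNReal

namespace Pool.Agent.TH218.BRS

open Pool.Agent.TH280.LS Pool.Agent.TH218.LS

/-- total variation -/
noncomputable def vrm {m : ℕ} (G : (Fin m → ℝ) → ℂ) : ℝ≥0∞ :=
  ⨆ h : Fin m → ℝ, (∫⁻ y : Fin m → ℝ, ‖G (y + h) - G y‖ₑ) / ENNReal.ofReal (nr h)

lemma vrm_bound {m : ℕ} {G : (Fin m → ℝ) → ℂ} (hv : vrm G ≠ ⊤) (h : Fin m → ℝ) :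
    ∫⁻ y : Fin m → ℝ, ‖G (y + h) - G y‖ₑ ≤ ENNReal.ofReal ((vrm G).toReal * nr h) := by
  rcases (nr_nonneg h).eq_or_lt with h0 | h0
  · have h1 : ‖h‖ ≤ 0 := (norm_le_nrm h).trans h0.symm.le
    have h2 : h = 0 := norm_le_zero_iff.1 h1
    subst h2
    simp
  · have h1 : (∫⁻ y : Fin m → ℝ, ‖G (y + h) - G y‖ₑ) / ENNReal.ofReal (nr h) ≤ vrm G :=
      le_iSup (fun h : Fin m → ℝ =>
        (∫⁻ y : Fin m → ℝ, ‖G (y + h) - G y‖ₑ) / ENNReal.ofReal (nr h)) h
    rw [ENNReal.div_le_iff (by simpa using h0) ENNReal.ofReal_ne_top] at h1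
    rwa [ENNReal.ofReal_mul ENNReal.toReal_nonneg, ENNReal.ofReal_toReal hv]

/-- the weighted estimate for sets -/
theorem setm_enn (m : ℕ) (hm : 1 ≤ m) (p N : ℝ) (hp2 : 2 < p)
    (hpm : ((m : ℝ) - 1) * (p - 2) < 1) (hN : 0 < N) :
    ∃ C : ℝ, 0 < C ∧ ∀ K : Set (Fin m → ℝ), MeasurableSet K → volume K ≠ ⊤ →
    vrm (K.indicator 1) ^ m ≤ ENNReal.ofReal N * volume K ^ (m - 1) →
    ∫⁻ η : Fin m → ℝ, ENNReal.ofReal ((nr η ^ m) ^ (p - 2)) *
      ‖ftm m (K.indicator 1) η‖ₑ ^ p ≤ ENNReal.ofReal C * volume K := by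
  have hm0 : (0 : ℝ) < m := by exact_mod_cast hm
  obtain ⟨C, hC, h⟩ := setm_core m hm p (N ^ (1 / (m : ℝ))) hp2 hpm (by positivity)
  refine ⟨C, hC, ?_⟩
  intro K hK hKt hv
  have hle : ∀ η, ‖ftm m (K.indicator 1) η‖ₑ ≤ volume K := by
    intro η
    refine (norm_ftm_le _ η).trans (le_of_eq ?_)
    rw [← lintegral_indicator_one hK]
    refine lintegral_congr fun y => ?_
    by_cases hy : y ∈ K
    · simp only [indicator_of_mem hy, Pi.one_apply, enorm_one]
    · simp only [indicator_of_notMem hy, enorm_zero]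
  by_cases h0 : volume K = 0
  · refine le_trans (le_of_eq ?_) bot_le
    rw [ENNReal.bot_eq_zero]
    refine (lintegral_congr fun η => ?_).trans lintegral_zero
    have h1 := hle η
    rw [h0] at h1
    rw [le_zero_iff.1 h1, ENNReal.zero_rpow_of_pos (by linarith), mul_zero]
  have hRt : ENNReal.ofReal N * volume K ^ (m - 1) ≠ ⊤ :=
    ENNReal.mul_ne_top ENNReal.ofReal_ne_top (ENNReal.pow_ne_top hKt)
  have hvt : vrm (K.indicator 1) ≠ ⊤ := by
    intro hcon
    rw [hcon, ENNReal.top_pow (by omega), top_le_iff] at hv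
    exact hRt hv
  have hi : Integrable (K.indicator (1 : (Fin m → ℝ) → ℂ)) := by
    rw [integrable_indicator_iff hK]
    exact integrableOn_const (hs := hKt)
  have hμ : 0 < (volume K).toReal := ENNReal.toReal_pos h0 hKt
  have h1 := h (K.indicator 1) (volume K).toReal (vrm (K.indicator 1)).toReal hi
    (Filter.Eventually.of_forall fun y => by
      by_cases hy : y ∈ K
      · simp only [indicator_of_mem hy, Pi.one_apply, norm_one, le_refl]
      · simp only [indicator_of_notMem hy, norm_zero, zero_le_one])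
    (vrm_bound hvt)
    (fun η => by
      have := hle η
      rw [← ofReal_norm] at this
      exact (ENNReal.ofReal_le_iff_le_toReal hKt).1 this)
    hμ ENNReal.toReal_nonneg (by
      have h2 := ENNReal.toReal_mono hRt hv
      rw [ENNReal.toReal_pow, ENNReal.toReal_mul, ENNReal.toReal_ofReal hN.le,
        ENNReal.toReal_pow] at h2
      set P := (vrm (K.indicator 1)).toReal with hP
      have hP0 : 0 ≤ P := ENNReal.toReal_nonneg
      set t := (volume K).toReal with ht
      have h3 : P = (P ^ m) ^ (1 / (m : ℝ)) := by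
        rw [← Real.rpow_natCast P m, ← Real.rpow_mul hP0, mul_one_div_cancel hm0.ne',
          Real.rpow_one]
      rw [h3]
      refine (Real.rpow_le_rpow (by positivity) h2 (by positivity)).trans (le_of_eq ?_)
      rw [Real.mul_rpow hN.le (by positivity), ← Real.rpow_natCast t (m - 1),
        ← Real.rpow_mul hμ.le]
      congr 2
      push_cast [Nat.cast_sub hm]
      ring)
  refine h1.trans (le_of_eq ?_)
  rw [ENNReal.ofReal_mul hC.le, ENNReal.ofReal_toReal hKt]

lemma meas_setm {m : ℕ} {g : (Fin m → ℝ) → ℝ} (hg : Measurable g) (l : ℝ) :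
    MeasurableSet {y | l < g y} := measurableSet_lt measurable_const hg

/-- the layer cake for the Fourier transform -/
lemma layerm_eq {m : ℕ} {g : (Fin m → ℝ) → ℝ} (hg : Measurable g) (hgi : Integrable g)
    (η : Fin m → ℝ) :
    ftm m (fun y => ((max (g y) 0 : ℝ) : ℂ)) η =
      ∫ l in Ioi (0 : ℝ), ftm m ({y | l < g y}.indicator 1) η := by
  unfold ftm
  set Φ : (Fin m → ℝ) → ℝ → ℂ := fun y l =>
    e (-(∑ i, y i * η i)) * {y | l < g y}.indicator (1 : (Fin m → ℝ) → ℂ) y with hΦ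
  have hind : ∀ y, (fun l : ℝ => {y | l < g y}.indicator (1 : (Fin m → ℝ) → ℂ) y) =
      (Iio (g y)).indicator (fun _ => (1 : ℂ)) := by
    intro y
    funext l
    by_cases h : l < g y
    · rw [indicator_of_mem (show y ∈ {y | l < g y} from h), indicator_of_mem (show l ∈ Iio (g y)
        from h)]
      rfl
    · rw [indicator_of_notMem (show y ∉ {y | l < g y} from h), indicator_of_notMem
        (show l ∉ Iio (g y) from h)]
  have hvol : ∀ y, (volume.restrict (Ioi (0 : ℝ))) (Iio (g y)) = ENNReal.ofReal (g y) := by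
    intro y
    rw [Measure.restrict_apply measurableSet_Iio, inter_comm, Ioi_inter_Iio, Real.volume_Ioo,
      sub_zero]
  have h1 : ∀ y, e (-(∑ i, y i * η i)) * ((max (g y) 0 : ℝ) : ℂ) =
      ∫ l in Ioi (0 : ℝ), Φ y l := by
    intro y
    rw [hΦ]
    simp only []
    rw [integral_const_mul, hind y, integral_indicator_const _ measurableSet_Iio, measureReal_def,
      hvol, ENNReal.toReal_ofReal']
    simp
  simp only [h1]
  rw [integral_integral_swap]
  have hm : Measurable (Function.uncurry Φ) := by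
    have h2 : Function.uncurry Φ = fun q : (Fin m → ℝ) × ℝ => e (-(∑ i, q.1 i * η i)) *
        {q : (Fin m → ℝ) × ℝ | q.2 < g q.1}.indicator (fun _ => (1 : ℂ)) q := by
      funext q
      simp only [Function.uncurry, hΦ]
      congr 1
    rw [h2]
    refine Measurable.mul (measurable_e.comp (by fun_prop)) ?_
    exact measurable_const.indicator (measurableSet_lt measurable_snd (hg.comp measurable_fst))
  refine ⟨hm.aestronglyMeasurable, ?_⟩
  unfold HasFiniteIntegral
  rw [lintegral_prod _ hm.enorm.aemeasurable]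
  have h3 : ∀ y, ∫⁻ l in Ioi (0 : ℝ), ‖Function.uncurry Φ (y, l)‖ₑ = ENNReal.ofReal (g y) := by
    intro y
    rw [← hvol y, ← lintegral_indicator_one measurableSet_Iio]
    refine lintegral_congr fun l => ?_
    simp only [Function.uncurry, hΦ]
    rw [enorm_mul]
    have h4 : ‖e (-(∑ i, y i * η i))‖ₑ = 1 := by
      rw [← ofReal_norm, norm_e]; simp
    rw [h4, one_mul]
    have h5 : {y | l < g y}.indicator (1 : (Fin m → ℝ) → ℂ) y =
      (Iio (g y)).indicator (fun _ => (1 : ℂ)) l := congrFun (hind y) l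
    rw [h5]
    by_cases h : l ∈ Iio (g y)
    · simp only [indicator_of_mem h, enorm_one, Pi.one_apply]
    · simp only [indicator_of_notMem h, enorm_zero]
  simp only [h3]
  refine lt_of_le_of_lt (lintegral_mono fun y => ?_) hgi.2
  rw [← ofReal_norm]
  exact ENNReal.ofReal_le_ofReal (le_abs_self _)

lemma measm_layer {m : ℕ} {g : (Fin m → ℝ) → ℝ} (hg : Measurable g) :
    Measurable (fun q : ℝ × (Fin m → ℝ) => ftm m ({y | q.1 < g y}.indicator 1) q.2) := by
  have h1 : StronglyMeasurable (fun q : (ℝ × (Fin m → ℝ)) × (Fin m → ℝ) =>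
      e (-(∑ i, q.2 i * q.1.2 i)) *
        {q : (ℝ × (Fin m → ℝ)) × (Fin m → ℝ) | q.1.1 < g q.2}.indicator (fun _ => (1 : ℂ)) q) := by
    apply Measurable.stronglyMeasurable
    refine Measurable.mul (measurable_e.comp (by fun_prop)) ?_
    exact measurable_const.indicator (measurableSet_lt (by fun_prop) (hg.comp measurable_snd))
  exact (h1.integral_prod_right' (ν := volume)).measurable

lemma head_int (S κ : ℝ) (hS : 0 < S) (hκ : κ < 1) :
    ∫⁻ l in Ioc 0 S, ENNReal.ofReal (l ^ (-κ)) = ENNReal.ofReal (S ^ (1 - κ) / (1 - κ)) := by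
  have hi : IntegrableOn (fun l : ℝ => l ^ (-κ)) (Ioc 0 S) := by
    rw [← intervalIntegrable_iff_integrableOn_Ioc_of_le hS.le]
    exact intervalIntegral.intervalIntegrable_rpow' (by linarith)
  rw [← ofReal_integral_eq_lintegral_ofReal hi]
  · rw [← intervalIntegral.integral_of_le hS.le, integral_rpow (Or.inl (by linarith))]
    congr 1
    have h1 : -κ + 1 = 1 - κ := by ring
    rw [h1, Real.zero_rpow (by linarith), sub_zero]
  · refine (ae_restrict_iff' measurableSet_Ioc).2 (Filter.Eventually.of_forall fun l hl => ?_)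
    have : 0 < l := hl.1
    positivity

/-- the basic inequality for functions of the level -/
theorem star (p0 p p1 : ℝ) (h0 : 1 < p0) (h01 : p0 < p) (h1 : p < p1) :
    ∃ C : ℝ, 0 < C ∧ ∀ a : ℝ → ℝ≥0∞, Measurable a → (∫⁻ l in Ioi (0 : ℝ), a l) ≠ ⊤ →
      (∫⁻ l in Ioi (0 : ℝ), a l) ^ p ≤ ENNReal.ofReal C *
        ((∫⁻ l in Ioi (0 : ℝ), ENNReal.ofReal (l ^ (p - 1)) * a l ^ p0) +
          ∫⁻ l in Ioi (0 : ℝ), ENNReal.ofReal (l ^ (p - 1)) * a l ^ p1) := by
  have hp0 : 0 < p := by linarith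
  set κ1 : ℝ := (p - 1) / (p1 - 1) with hκ1
  have hκ11 : κ1 < 1 := by rw [hκ1, div_lt_one (by linarith)]; linarith
  set κ0 : ℝ := (p - 1) / (p0 - 1) - 1 with hκ0
  have hκ00 : 0 < κ0 := by
    rw [hκ0, sub_pos, lt_div_iff₀ (by linarith)]; linarith
  set D1 : ℝ := (1 / (1 - κ1)) ^ (p1 - 1) with hD1
  set D0 : ℝ := (1 / κ0) ^ (p0 - 1) with hD0
  have h1κ : 0 < 1 - κ1 := by linarith
  have hD10 : 0 < D1 := by positivity
  have hD00 : 0 < D0 := by positivity
  refine ⟨2 ^ p1 * D1 + 2 ^ p0 * D0, by positivity, ?_⟩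
  intro a ha hSt
  set Se := ∫⁻ l in Ioi (0 : ℝ), a l with hSe
  set Y := ∫⁻ l in Ioi (0 : ℝ), ENNReal.ofReal (l ^ (p - 1)) * a l ^ p0 with hY
  set X := ∫⁻ l in Ioi (0 : ℝ), ENNReal.ofReal (l ^ (p - 1)) * a l ^ p1 with hX
  by_cases hS0 : Se = 0
  · rw [hS0, ENNReal.zero_rpow_of_pos hp0]; exact zero_le
  set S : ℝ := Se.toReal with hS
  have hSp : 0 < S := ENNReal.toReal_pos hS0 hSt
  have hSS : Se = ENNReal.ofReal S := (ENNReal.ofReal_toReal hSt).symm
  have hsplit : Se ≤ (∫⁻ l in Ioc 0 S, a l) + ∫⁻ l in Ioi S, a l := by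
    rw [hSe, ← Ioc_union_Ioi_eq_Ioi hSp.le]
    exact lintegral_union_le _ _ _
  have hwm : Measurable (fun l : ℝ => l ^ (p - 1)) := Measurable.pow_const measurable_id _
  -- the two Hölder inequalities
  have hA : (∫⁻ l in Ioc 0 S, a l) ^ p1 ≤ ENNReal.ofReal (D1 * S ^ (p1 - p)) * X := by
    have h2 := hold (volume.restrict (Ioc 0 S)) p1 (by linarith) (fun l => l ^ (p - 1)) hwm
      ((ae_restrict_iff' measurableSet_Ioc).2 (Filter.Eventually.of_forall fun l hl => by
        have : 0 < l := hl.1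
        positivity)) a ha.aemeasurable
    have h3 : ∫⁻ l in Ioc 0 S, ENNReal.ofReal ((l ^ (p - 1)) ^ (-(1 / (p1 - 1)))) =
        ENNReal.ofReal (S ^ (1 - κ1) / (1 - κ1)) := by
      rw [← head_int S κ1 hSp hκ11]
      refine setLIntegral_congr_fun measurableSet_Ioc fun l hl => ?_
      have hl0 : 0 < l := hl.1
      change ENNReal.ofReal ((l ^ (p - 1)) ^ (-(1 / (p1 - 1)))) = _
      rw [← Real.rpow_mul hl0.le]
      congr 2
      rw [hκ1]
      ring
    rw [h3] at h2
    refine h2.trans (mul_le_mul' (le_of_eq ?_) (lintegral_mono_set Ioc_subset_Ioi_self))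
    rw [ENNReal.ofReal_rpow_of_pos (by positivity)]
    congr 1
    rw [div_eq_mul_one_div, Real.mul_rpow (by positivity) (by positivity),
      ← Real.rpow_mul hSp.le, mul_comm]
    congr 2
    rw [hκ1]
    have : p1 - 1 ≠ 0 := by linarith
    field_simp
    ring
  have hB : (∫⁻ l in Ioi S, a l) ^ p0 ≤ ENNReal.ofReal (D0 * S ^ (p0 - p)) * Y := by
    have h2 := hold (volume.restrict (Ioi S)) p0 h0 (fun l => l ^ (p - 1)) hwm
      ((ae_restrict_iff' measurableSet_Ioi).2 (Filter.Eventually.of_forall fun l hl => by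
        have : 0 < l := hSp.trans hl
        positivity)) a ha.aemeasurable
    have h3 : ∫⁻ l in Ioi S, ENNReal.ofReal ((l ^ (p - 1)) ^ (-(1 / (p0 - 1)))) =
        ENNReal.ofReal (S ^ (-κ0) / κ0) := by
      rw [← tail_int S κ0 hSp hκ00]
      refine setLIntegral_congr_fun measurableSet_Ioi fun l hl => ?_
      have hl0 : 0 < l := hSp.trans hl
      change ENNReal.ofReal ((l ^ (p - 1)) ^ (-(1 / (p0 - 1)))) = _
      rw [← Real.rpow_mul hl0.le]
      congr 2
      rw [hκ0]
      ring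
    rw [h3] at h2
    refine h2.trans (mul_le_mul' (le_of_eq ?_) (lintegral_mono_set (Ioi_subset_Ioi hSp.le)))
    rw [ENNReal.ofReal_rpow_of_pos (by positivity)]
    congr 1
    rw [div_eq_mul_one_div, Real.mul_rpow (by positivity) (by positivity),
      ← Real.rpow_mul hSp.le, mul_comm]
    congr 2
    rw [hκ0]
    have : p0 - 1 ≠ 0 := by linarith
    field_simp
    ring
  -- one of the two parts is at least half
  have hhalf : ENNReal.ofReal (S / 2) ≤ (∫⁻ l in Ioc 0 S, a l) ∨
      ENNReal.ofReal (S / 2) ≤ ∫⁻ l in Ioi S, a l := by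
    by_contra hcon
    push Not at hcon
    have h2 := ENNReal.add_lt_add hcon.1 hcon.2
    rw [← ENNReal.ofReal_add (by positivity) (by positivity), add_halves, ← hSS] at h2
    exact absurd (hsplit.trans_lt h2) (lt_irrefl _)
  have hfin : ∀ (r D : ℝ) (Z T : ℝ≥0∞), 0 < r → 0 < D → ENNReal.ofReal (S / 2) ≤ T →
      T ^ r ≤ ENNReal.ofReal (D * S ^ (r - p)) * Z → Se ^ p ≤ ENNReal.ofReal (2 ^ r * D) * Z := by
    intro r D Z T hr hD hT hTZ
    have h2 := (ENNReal.rpow_le_rpow hT hr.le).trans hTZ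
    rw [ENNReal.ofReal_rpow_of_pos (by positivity)] at h2
    have h3 := mul_le_mul_right h2 (ENNReal.ofReal (2 ^ r * S ^ (p - r)))
    rw [← ENNReal.ofReal_mul (by positivity), ← mul_assoc,
      ← ENNReal.ofReal_mul (by positivity)] at h3
    have e1 : 2 ^ r * S ^ (p - r) * (S / 2) ^ r = S ^ p := by
      rw [Real.div_rpow hSp.le (by norm_num)]
      have : S ^ p = S ^ (p - r) * S ^ r := by
        rw [← Real.rpow_add hSp]
        congr 1; ring
      rw [this]
      field_simp
    have e2 : 2 ^ r * S ^ (p - r) * (D * S ^ (r - p)) = 2 ^ r * D := by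
      have : S ^ (p - r) * S ^ (r - p) = 1 := by
        rw [← Real.rpow_add hSp]
        simp
      calc 2 ^ r * S ^ (p - r) * (D * S ^ (r - p))
          = 2 ^ r * D * (S ^ (p - r) * S ^ (r - p)) := by ring
        _ = _ := by rw [this, mul_one]
    rw [e1, e2] at h3
    rw [hSS, ENNReal.ofReal_rpow_of_pos hSp]
    exact h3
  rw [ENNReal.ofReal_add (by positivity) (by positivity)]
  rcases hhalf with hh | hh
  · refine (hfin p1 D1 X _ (by linarith) hD10 hh hA).trans ?_
    exact mul_le_mul' le_self_add le_add_self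
  · refine (hfin p0 D0 Y _ (by linarith) hD00 hh hB).trans ?_
    exact mul_le_mul' le_add_self le_self_add

end Pool.Agent.TH218.BRS
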