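import Pool.Agent.TH218.BRS.Layer
set_option autoImplicit false

/-! # Functions with good level sets, dimension `m` -/

open MeasureTheory Set Complex
open scoped ENNReal

namespace Pool.Agent.TH218.BRS

open Pool.Agent.TH280.LS Pool.Agent.TH218.LS

lemma meas_nrm {m : ℕ} : Measurable (fun η : Fin m → ℝ => nr η) := by
  unfold nr
  fun_prop

/-- the weighted estimate for the positive part of a function with good superlevel sets -/
theorem levm_real (m : ℕ) (hm : 1 ≤ m) (p N : ℝ) (hp2 : 2 < p)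
    (hpm : ((m : ℝ) - 1) * (p - 2) < 1) (hN : 0 < N) :
    ∃ C : ℝ, 0 < C ∧ ∀ g : (Fin m → ℝ) → ℝ, Measurable g → Integrable g →
    (∀ l : ℝ, 0 < l → vrm ({y | l < g y}.indicator 1) ^ m ≤
      ENNReal.ofReal N * volume {y | l < g y} ^ (m - 1)) →
    ∫⁻ η : Fin m → ℝ, ENNReal.ofReal ((nr η ^ m) ^ (p - 2)) *
      ‖ftm m (fun y => ((max (g y) 0 : ℝ) : ℂ)) η‖ₑ ^ p ≤
      ENNReal.ofReal C * ∫⁻ y, ENNReal.ofReal (g y) ^ p := by
  have hp0 : 0 < p := by linarith
  obtain ⟨p1, hp1, hpm1⟩ : ∃ p1 : ℝ, p < p1 ∧ ((m : ℝ) - 1) * (p1 - 2) < 1 := by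
    have hm1 : (1 : ℝ) ≤ m := by exact_mod_cast hm
    have hm0 : (0 : ℝ) ≤ (m : ℝ) - 1 := by linarith
    refine ⟨p + (1 - ((m : ℝ) - 1) * (p - 2)) / (2 * m), ?_, ?_⟩
    · have : 0 < (1 - ((m : ℝ) - 1) * (p - 2)) / (2 * m) := by
        apply div_pos <;> linarith
      linarith
    · set d := 1 - ((m : ℝ) - 1) * (p - 2) with hd
      have hd0 : 0 < d := by rw [hd]; linarith
      have h1 : ((m : ℝ) - 1) * (d / (2 * m)) < d := by
        have h2 : ((m : ℝ) - 1) * (d / (2 * m)) = d * (((m : ℝ) - 1) / (2 * m)) := by ring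
        rw [h2]
        have h3 : ((m : ℝ) - 1) / (2 * m) < 1 := by
          rw [div_lt_one (by linarith)]; linarith
        nlinarith
      have h4 : ((m : ℝ) - 1) * (p + d / (2 * m) - 2) =
          ((m : ℝ) - 1) * (p - 2) + ((m : ℝ) - 1) * (d / (2 * m)) := by ring
      rw [h4]
      have h5 : ((m : ℝ) - 1) * (p - 2) = 1 - d := by rw [hd]; ring
      rw [h5]
      linarith
  set p0 : ℝ := (2 + p) / 2 with hp0d
  have hp02 : 2 < p0 := by rw [hp0d]; linarith
  have hp0p : p0 < p := by rw [hp0d]; linarith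
  have hpm0 : ((m : ℝ) - 1) * (p0 - 2) < 1 := by
    have hm1 : (1 : ℝ) ≤ m := by exact_mod_cast hm
    refine lt_of_le_of_lt ?_ hpm
    exact mul_le_mul_of_nonneg_left (by linarith) (by linarith)
  obtain ⟨C0, hC0, hset0⟩ := setm_enn m hm p0 N hp02 hpm0 hN
  obtain ⟨C1, hC1, hset1⟩ := setm_enn m hm p1 N (by linarith) hpm1 hN
  obtain ⟨Cs, hCs, hstar⟩ := star p0 p p1 (by linarith) hp0p hp1
  refine ⟨Cs * (C0 + C1) / p, by positivity, ?_⟩
  intro g hg hgi hlev
  have hKt : ∀ l : ℝ, 0 < l → volume {y | l < g y} ≠ ⊤ :=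
    fun l hl => (hgi.measure_gt_lt_top hl).ne
  set a : ℝ → (Fin m → ℝ) → ℝ≥0∞ := fun l η => ‖ftm m ({y | l < g y}.indicator 1) η‖ₑ with ha
  have ham : Measurable (Function.uncurry a) := (measm_layer hg).enorm
  have hale : ∀ l η, a l η ≤ volume {y | l < g y} := by
    intro l η
    refine (norm_ftm_le _ η).trans (le_of_eq ?_)
    rw [← lintegral_indicator_one (meas_setm hg l)]
    refine lintegral_congr fun y => ?_
    by_cases hy : y ∈ {y | l < g y}
    · simp only [indicator_of_mem hy, Pi.one_apply, enorm_one]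
    · simp only [indicator_of_notMem hy, enorm_zero]
  have hmax : ∀ t : ℝ, 0 < t → {y | t < max (g y) 0} = {y | t < g y} := by
    intro t ht
    ext y
    simp only [mem_setOf_eq, lt_max_iff]
    constructor
    · rintro (h | h)
      · exact h
      · exact absurd (ht.trans h) (lt_irrefl _)
    · exact fun h => Or.inl h
  have hSt : ∀ η, (∫⁻ l in Ioi (0 : ℝ), a l η) ≠ ⊤ := by
    intro η
    have h1 : ∫⁻ l in Ioi (0 : ℝ), a l η ≤ ∫⁻ l in Ioi (0 : ℝ), volume {y | l < g y} :=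
      lintegral_mono fun l => hale l η
    have h2 := lintegral_eq_lintegral_meas_lt (volume : Measure (Fin m → ℝ))
      (f := fun y => max (g y) 0) (Filter.Eventually.of_forall fun y => le_max_right _ _)
      (hg.max measurable_const).aemeasurable
    have h3 : ∫⁻ l in Ioi (0 : ℝ), volume {y | l < max (g y) 0} =
        ∫⁻ l in Ioi (0 : ℝ), volume {y | l < g y} :=
      setLIntegral_congr_fun measurableSet_Ioi fun l hl => by rw [hmax l hl]
    rw [h3] at h2
    rw [← h2] at h1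
    refine (h1.trans_lt ?_).ne
    refine lt_of_le_of_lt (lintegral_mono fun y => ?_) hgi.2
    rw [← ofReal_norm]
    exact ENNReal.ofReal_le_ofReal (max_le (le_abs_self _) (norm_nonneg _))
  have hP1 : ∀ η, ‖ftm m (fun y => ((max (g y) 0 : ℝ) : ℂ)) η‖ₑ ≤
      ∫⁻ l in Ioi (0 : ℝ), a l η := by
    intro η
    rw [layerm_eq hg hgi]
    exact enorm_integral_le_lintegral_enorm _
  have hsa : ∀ (r Cr : ℝ), (∀ K : Set (Fin m → ℝ), MeasurableSet K →
      volume K ≠ ⊤ → vrm (K.indicator 1) ^ m ≤ ENNReal.ofReal N * volume K ^ (m - 1) →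
      ∫⁻ η : Fin m → ℝ, ENNReal.ofReal ((nr η ^ m) ^ (r - 2)) *
        ‖ftm m (K.indicator 1) η‖ₑ ^ r ≤ ENNReal.ofReal Cr * volume K) →
      ∀ l : ℝ, 0 < l → ∫⁻ η : Fin m → ℝ, ENNReal.ofReal ((nr η ^ m) ^ (r - 2)) *
        a l η ^ r ≤ ENNReal.ofReal Cr * volume {y | l < g y} :=
    fun r Cr hs l hl => hs _ (meas_setm hg l) (hKt l hl) (hlev l hl)
  have hs0 := hsa p0 C0 hset0
  have hs1 := hsa p1 C1 hset1
  clear hsa
  clear_value a
  have hM : ∀ r : ℝ, Measurable (fun q : (Fin m → ℝ) × ℝ => ENNReal.ofReal (q.2 ^ (p - 1)) *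
      (ENNReal.ofReal ((nr q.1 ^ m) ^ (r - 2)) * a q.2 q.1 ^ r)) := by
    intro r
    have e1 : Measurable (fun q : (Fin m → ℝ) × ℝ => ENNReal.ofReal (q.2 ^ (p - 1))) :=
      (Measurable.pow_const measurable_snd _).ennreal_ofReal
    have e2 : Measurable (fun q : (Fin m → ℝ) × ℝ =>
        ENNReal.ofReal ((nr q.1 ^ m) ^ (r - 2))) :=
      (Measurable.pow_const ((meas_nrm.comp measurable_fst).pow_const m) _).ennreal_ofReal
    have e3 : Measurable (fun q : (Fin m → ℝ) × ℝ => a q.2 q.1) :=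
      ham.comp (measurable_snd.prodMk measurable_fst)
    exact e1.mul (e2.mul (e3.pow_const r))
  set w : (Fin m → ℝ) → ℝ≥0∞ := fun η => ENNReal.ofReal (nr η ^ m) with hw
  have hwm : Measurable w := (meas_nrm.pow_const m).ennreal_ofReal
  have hne : ∀ᵐ η : Fin m → ℝ, 0 < nr η := by
    have : Nonempty (Fin m) := ⟨⟨0, by omega⟩⟩
    have h0 : ∀ᵐ η : Fin m → ℝ, η ≠ 0 := by
      rw [ae_iff]
      have h1 : {a : Fin m → ℝ | ¬ a ≠ 0} = {0} := by ext; simp
      rw [h1]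
      exact measure_singleton 0
    filter_upwards [h0] with η hη
    exact (norm_pos_iff.2 hη).trans_le (norm_le_nrm η)
  have hwr : ∀ r : ℝ, ∀ η : Fin m → ℝ, 0 < nr η →
      ENNReal.ofReal ((nr η ^ m) ^ (r - 2)) = w η ^ (r - 2) := by
    intro r η hη
    simp only [hw]
    rw [ENNReal.ofReal_rpow_of_pos (by positivity)]
  -- pointwise inequality
  have hpt : ∀ᵐ η : Fin m → ℝ, ENNReal.ofReal ((nr η ^ m) ^ (p - 2)) *
      ‖ftm m (fun y => ((max (g y) 0 : ℝ) : ℂ)) η‖ₑ ^ p ≤ ENNReal.ofReal Cs *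
      ((∫⁻ l in Ioi (0 : ℝ), ENNReal.ofReal (l ^ (p - 1)) *
          (ENNReal.ofReal ((nr η ^ m) ^ (p0 - 2)) * a l η ^ p0)) +
        ∫⁻ l in Ioi (0 : ℝ), ENNReal.ofReal (l ^ (p - 1)) *
          (ENNReal.ofReal ((nr η ^ m) ^ (p1 - 2)) * a l η ^ p1)) := by
    filter_upwards [hne] with η hη
    have hw0 : w η ≠ 0 := by
      simp only [hw]
      have : 0 < nr η ^ m := by positivity
      simpa using this
    have hwt : w η ≠ ⊤ := ENNReal.ofReal_ne_top
    have h1 := hP1 η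
    have h2 := hstar (fun l => w η * a l η)
      ((ham.comp (measurable_id.prodMk measurable_const)).const_mul (w η)) (by
        rw [lintegral_const_mul' _ _ hwt]
        exact ENNReal.mul_ne_top hwt (hSt η))
    rw [lintegral_const_mul' _ _ hwt, ENNReal.mul_rpow_of_nonneg _ _ hp0.le] at h2
    have h3 : ∀ r : ℝ, 0 ≤ r → w η ^ (-2 : ℝ) *
        (∫⁻ l in Ioi (0 : ℝ), ENNReal.ofReal (l ^ (p - 1)) * (w η * a l η) ^ r) =
        ∫⁻ l in Ioi (0 : ℝ), ENNReal.ofReal (l ^ (p - 1)) *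
          (ENNReal.ofReal ((nr η ^ m) ^ (r - 2)) * a l η ^ r) := by
      intro r hr
      rw [← lintegral_const_mul' _ _ (by
        rw [Ne, ENNReal.rpow_eq_top_iff]
        push Not
        exact ⟨fun h => absurd h hw0, fun h => absurd h hwt⟩)]
      refine lintegral_congr fun l => ?_
      rw [ENNReal.mul_rpow_of_nonneg _ _ hr, hwr r η hη]
      have h4 : w η ^ (r - 2) = w η ^ (-2 : ℝ) * w η ^ r := by
        rw [← ENNReal.rpow_add _ _ hw0 hwt]
        congr 1; ring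
      rw [h4]
      ring
    calc ENNReal.ofReal ((nr η ^ m) ^ (p - 2)) *
          ‖ftm m (fun y => ((max (g y) 0 : ℝ) : ℂ)) η‖ₑ ^ p
        ≤ w η ^ (p - 2) * (∫⁻ l in Ioi (0 : ℝ), a l η) ^ p := by
          rw [hwr p η hη]
          exact mul_le_mul_right (ENNReal.rpow_le_rpow h1 hp0.le) _
      _ = w η ^ (-2 : ℝ) * (w η ^ p * (∫⁻ l in Ioi (0 : ℝ), a l η) ^ p) := by
          rw [← mul_assoc, ← ENNReal.rpow_add _ _ hw0 hwt]
          congr 2; ring
      _ ≤ w η ^ (-2 : ℝ) * (ENNReal.ofReal Cs *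
          ((∫⁻ l in Ioi (0 : ℝ), ENNReal.ofReal (l ^ (p - 1)) * (w η * a l η) ^ p0) +
            ∫⁻ l in Ioi (0 : ℝ), ENNReal.ofReal (l ^ (p - 1)) * (w η * a l η) ^ p1)) :=
          mul_le_mul_right h2 _
      _ = _ := by
          rw [mul_left_comm, mul_add, h3 p0 (by linarith), h3 p1 (by linarith)]
  have hswap : ∀ (r Cr : ℝ), (∀ l : ℝ, 0 < l →
      ∫⁻ η : Fin m → ℝ, ENNReal.ofReal ((nr η ^ m) ^ (r - 2)) * a l η ^ r ≤
        ENNReal.ofReal Cr * volume {y | l < g y}) →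
      ∫⁻ η : Fin m → ℝ, (∫⁻ l in Ioi (0 : ℝ), ENNReal.ofReal (l ^ (p - 1)) *
          (ENNReal.ofReal ((nr η ^ m) ^ (r - 2)) * a l η ^ r)) ≤
        ENNReal.ofReal Cr * ∫⁻ l in Ioi (0 : ℝ), volume {y | l < g y} *
          ENNReal.ofReal (l ^ (p - 1)) := by
    intro r Cr hs
    rw [lintegral_lintegral_swap (hM r).aemeasurable,
      ← lintegral_const_mul' _ _ ENNReal.ofReal_ne_top]
    refine setLIntegral_mono' measurableSet_Ioi fun l hl => ?_
    rw [lintegral_const_mul' _ _ ENNReal.ofReal_ne_top]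
    refine (mul_le_mul_right (hs l hl) _).trans (le_of_eq ?_)
    ring
  have hlc : ∫⁻ y, ENNReal.ofReal (g y) ^ p = ENNReal.ofReal p *
      ∫⁻ l in Ioi (0 : ℝ), volume {y | l < g y} * ENNReal.ofReal (l ^ (p - 1)) := by
    have h2 := lintegral_rpow_eq_lintegral_meas_lt_mul (volume : Measure (Fin m → ℝ))
      (f := fun y => max (g y) 0) (Filter.Eventually.of_forall fun y => le_max_right _ _)
      (hg.max measurable_const).aemeasurable hp0
    have h3 : ∫⁻ l in Ioi (0 : ℝ), volume {y | l < max (g y) 0} * ENNReal.ofReal (l ^ (p - 1)) =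
        ∫⁻ l in Ioi (0 : ℝ), volume {y | l < g y} * ENNReal.ofReal (l ^ (p - 1)) :=
      setLIntegral_congr_fun measurableSet_Ioi fun l hl => by
        change volume {y | l < max (g y) 0} * _ = _
        rw [hmax l hl]
    rw [h3] at h2
    rw [← h2]
    refine lintegral_congr fun y => ?_
    rw [← ENNReal.ofReal_rpow_of_nonneg (le_max_right _ _) hp0.le]
    congr 1
    rcases le_total (g y) 0 with h | h
    · rw [max_eq_right h, ENNReal.ofReal_of_nonpos h, ENNReal.ofReal_zero]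
    · rw [max_eq_left h]
  set Q := ∫⁻ l in Ioi (0 : ℝ), volume {y | l < g y} * ENNReal.ofReal (l ^ (p - 1)) with hQ
  have hmeas1 : Measurable (fun η : Fin m → ℝ => ∫⁻ l in Ioi (0 : ℝ),
      ENNReal.ofReal (l ^ (p - 1)) * (ENNReal.ofReal ((nr η ^ m) ^ (p0 - 2)) * a l η ^ p0)) := by
    have h1 := hM p0
    exact h1.lintegral_prod_right'
  calc ∫⁻ η : Fin m → ℝ, ENNReal.ofReal ((nr η ^ m) ^ (p - 2)) *
        ‖ftm m (fun y => ((max (g y) 0 : ℝ) : ℂ)) η‖ₑ ^ p
      ≤ ∫⁻ η : Fin m → ℝ, ENNReal.ofReal Cs *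
        ((∫⁻ l in Ioi (0 : ℝ), ENNReal.ofReal (l ^ (p - 1)) *
          (ENNReal.ofReal ((nr η ^ m) ^ (p0 - 2)) * a l η ^ p0)) +
        ∫⁻ l in Ioi (0 : ℝ), ENNReal.ofReal (l ^ (p - 1)) *
          (ENNReal.ofReal ((nr η ^ m) ^ (p1 - 2)) * a l η ^ p1)) := lintegral_mono_ae hpt
    _ ≤ ENNReal.ofReal Cs * (ENNReal.ofReal C0 * Q + ENNReal.ofReal C1 * Q) := by
        rw [lintegral_const_mul' _ _ ENNReal.ofReal_ne_top, lintegral_add_left hmeas1]
        refine mul_le_mul_right (add_le_add ?_ ?_) _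
        · exact hswap p0 C0 hs0
        · exact hswap p1 C1 hs1
    _ = _ := by
        rw [hlc, ← add_mul, ← ENNReal.ofReal_add hC0.le hC1.le, ← mul_assoc, ← mul_assoc,
          ← ENNReal.ofReal_mul hCs.le, ← ENNReal.ofReal_mul (by positivity)]
        congr 2
        field_simp

end Pool.Agent.TH218.BRS
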