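import Pool.Agent.TH218.BRS.LevC
set_option autoImplicit false

/-! # Bochner-Riesz means of functions whose slices have good level sets -/

open MeasureTheory Set Filter
open scoped ENNReal FourierTransform RealInnerProductSpace Topology

namespace Pool.Agent.TH218.BRS

open Pool.Agent.TH280.LS Pool.Agent.TH280.BR

/-- the weighted estimate for multiples of functions with good level sets -/
lemma levm_mul {m : ℕ} {p : ℝ} (hp : 0 < p) {N C : ℝ} {W : (Fin m → ℝ) → ℝ}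
    (h : ∀ F : (Fin m → ℝ) → ℂ, Integrable F → Levm N F →
      ∫⁻ η : Fin m → ℝ, ENNReal.ofReal (W η) * ‖ftm m F η‖ₑ ^ p ≤
        ENNReal.ofReal C * ∫⁻ y, ‖F y‖ₑ ^ p)
    (b : ℂ) (F G : (Fin m → ℝ) → ℂ) (hG : Integrable G) (hb : ∀ y, G y = b * F y)
    (hF : Levm N F) :
    ∫⁻ η : Fin m → ℝ, ENNReal.ofReal (W η) * ‖ftm m G η‖ₑ ^ p ≤
      ENNReal.ofReal C * ∫⁻ y, ‖G y‖ₑ ^ p := by
  by_cases hb0 : b = 0
  · refine le_trans (le_of_eq ?_) bot_le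
    rw [ENNReal.bot_eq_zero]
    refine (lintegral_congr fun η => ?_).trans lintegral_zero
    have h1 : ftm m G η = 0 := by
      unfold ftm
      simp only [hb, hb0, zero_mul, mul_zero, integral_zero]
    rw [h1, enorm_zero, ENNReal.zero_rpow_of_pos hp, mul_zero]
  have hFG : F = fun y => b⁻¹ * G y := by
    funext y
    rw [hb, ← mul_assoc, inv_mul_cancel₀ hb0, one_mul]
  have hFi : Integrable F := by
    rw [hFG]
    exact hG.const_mul _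
  have h1 : ∀ η, ftm m G η = b * ftm m F η := by
    intro η
    unfold ftm
    rw [← integral_const_mul]
    refine integral_congr_ae (Eventually.of_forall fun y => ?_)
    change _ * G y = _
    rw [hb]
    ring
  have hbt : ‖b‖ₑ ^ p ≠ ⊤ := ENNReal.rpow_ne_top_of_nonneg hp.le enorm_ne_top
  have h2 : ∫⁻ η : Fin m → ℝ, ENNReal.ofReal (W η) * ‖ftm m G η‖ₑ ^ p =
      ‖b‖ₑ ^ p * ∫⁻ η : Fin m → ℝ, ENNReal.ofReal (W η) * ‖ftm m F η‖ₑ ^ p := by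
    rw [← lintegral_const_mul' _ _ hbt]
    refine lintegral_congr fun η => ?_
    rw [h1, enorm_mul, ENNReal.mul_rpow_of_nonneg _ _ hp.le]
    ring
  have h3 : ∫⁻ y, ‖G y‖ₑ ^ p = ‖b‖ₑ ^ p * ∫⁻ y, ‖F y‖ₑ ^ p := by
    rw [← lintegral_const_mul' _ _ hbt]
    refine lintegral_congr fun y => ?_
    rw [hb, enorm_mul, ENNReal.mul_rpow_of_nonneg _ _ hp.le]
  rw [h2, h3, mul_left_comm]
  exact mul_le_mul_right (h F hFi hF) _

/-- the class -/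
def ClL (m : ℕ) (N : ℝ) (f : EuclideanSpace ℝ (Fin (m + 2)) → ℂ) : Prop :=
  ∃ (L : EuclideanSpace ℝ (Fin (m + 2)) ≃ₗᵢ[ℝ] EuclideanSpace ℝ (Fin (m + 2)))
    (b : ℝ × ℝ → ℂ) (F : ℝ × ℝ → (Fin m → ℝ) → ℂ), (∀ x, Levm N (F x)) ∧
    ∀ z, f z = b (Zb m (L z)).1 * F (Zb m (L z)).1 (Zb m (L z)).2

/-- the estimate -/
theorem br_L (hTBP : S_TBP) (hE4R : S_E4R) (m : ℕ) (hm : 1 ≤ m) (δ p N : ℝ) (hδ : 0 < δ)
    (hp : 2 < p) (hp4 : p ≤ 4) (hpm : ((m : ℝ) - 1) * (p - 2) < 1) (hN : 0 < N) :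
    ∃ C : ℝ, 0 < C ∧ ∀ f : EuclideanSpace ℝ (Fin (m + 2)) → ℂ, Integrable f → ClL m N f →
    ∫⁻ z, ‖RB m δ f z‖ₑ ^ p ≤ ENNReal.ofReal C * ∫⁻ z, ‖f z‖ₑ ^ p := by
  obtain ⟨C2, hC2, hcl⟩ := levm_bound m hm p N hp hpm hN
  have hne : ∀ᵐ η : Fin m → ℝ, nr η ^ m ≠ 0 := by
    have : Nonempty (Fin m) := ⟨⟨0, by omega⟩⟩
    have h0 : ∀ᵐ η : Fin m → ℝ, η ≠ 0 := by
      rw [ae_iff]
      have h1 : {a : Fin m → ℝ | ¬ a ≠ 0} = {0} := by ext; simp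
      rw [h1]
      exact measure_singleton 0
    filter_upwards [h0] with η hη
    exact pow_ne_zero m ((norm_pos_iff.2 hη).trans_le (norm_le_nrm η)).ne'
  obtain ⟨C, hC, h⟩ := br_gen hTBP m (fun η => nr η ^ m) δ p C2 (meas_nrm.pow_const m)
    (fun η => pow_nonneg (Pool.Agent.TH218.LS.nr_nonneg η) m) hne (hE4R m hm) hδ hp.le hp4 hC2
  refine ⟨C, hC, ?_⟩
  rintro f hf ⟨L, b, F, hF, hfz⟩
  refine h f hf ⟨L, fun w => b (Zb m w).1 * F (Zb m w).1 (Zb m w).2, hfz, ?_⟩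
  intro x hx
  have heq : ∀ y : Fin m → ℝ, (fun w => b (Zb m w).1 * F (Zb m w).1 (Zb m w).2)
      ((Zb m).symm (x, y)) = b x * F x y := by
    intro y
    simp only [MeasurableEquiv.apply_symm_apply]
  exact levm_mul (by linarith) hcl (b x) (F x) _ hx heq (hF x)

end Pool.Agent.TH218.BRS
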